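import Mathlib

/-! Zeros of a polynomial in two variables near the diagonal. -/

set_option autoImplicit false

open Filter Topology Polynomial

namespace Pool.Agent.V8H7.ORD

/-- factor out the power of the variable -/
lemma exists_pow_mul {R : Type*} [CommRing R] [IsDomain R] (Q : R[X]) (hQ : Q ≠ 0) :
    ∃ (m : ℕ) (Q1 : R[X]), Q = X ^ m * Q1 ∧ Q1.coeff 0 ≠ 0 := by
  obtain ⟨q, hq1, hq2⟩ := Polynomial.exists_eq_pow_rootMultiplicity_mul_and_not_dvd Q hQ 0
  rw [map_zero, sub_zero] at hq1 hq2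
  exact ⟨_, q, hq1, fun h => hq2 (Polynomial.X_dvd_iff.2 h)⟩

/-- a polynomial is close to its leading term -/
lemma lead_close (q : ℝ[X]) (D : ℕ) (hD : q.natDegree ≤ D) :
    ∃ K : ℝ, 0 ≤ K ∧ ∀ x : ℝ, 1 ≤ x → |q.eval x - q.coeff D * x ^ D| * x ≤ K * x ^ D := by
  refine ⟨∑ j ∈ Finset.range D, |q.coeff j|, Finset.sum_nonneg fun _ _ => abs_nonneg _, ?_⟩
  intro x hx
  have hx0 : 0 ≤ x := by linarith
  rw [Polynomial.eval_eq_sum_range' (Nat.lt_succ_of_le hD) x, Finset.sum_range_succ,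
    add_sub_cancel_right]
  have h1 : |∑ j ∈ Finset.range D, q.coeff j * x ^ j| ≤
      ∑ j ∈ Finset.range D, |q.coeff j| * x ^ j := by
    refine (Finset.abs_sum_le_sum_abs _ _).trans (le_of_eq ?_)
    refine Finset.sum_congr rfl fun j _ => ?_
    rw [abs_mul, abs_of_nonneg (pow_nonneg hx0 j)]
  refine (mul_le_mul_of_nonneg_right h1 hx0).trans ?_
  rw [Finset.sum_mul, Finset.sum_mul]
  refine Finset.sum_le_sum fun j hj => ?_
  rw [mul_assoc, ← pow_succ]
  exact mul_le_mul_of_nonneg_left (pow_le_pow_right₀ hx (Finset.mem_range.1 hj)) (abs_nonneg _)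

/-- the expansion of `P (x, x + t)` in powers of `t` -/
noncomputable def shiftPoly (P : MvPolynomial (Fin 2) ℝ) : ℝ[X][X] :=
  MvPolynomial.eval₂ ((C : ℝ[X] →+* ℝ[X][X]).comp (C : ℝ →+* ℝ[X])) ![C X, C X + X] P

lemma shiftPoly_eval (P : MvPolynomial (Fin 2) ℝ) (x t : ℝ) :
    ((shiftPoly P).map (Polynomial.evalRingHom x)).eval t = MvPolynomial.eval ![x, x + t] P := by
  unfold shiftPoly
  induction P using MvPolynomial.induction_on with
  | C a => simp
  | add p q hp hq => rw [MvPolynomial.eval₂_add, Polynomial.map_add, Polynomial.eval_add, hp, hq,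
      map_add]
  | mul_X p i hp =>
    rw [MvPolynomial.eval₂_mul, Polynomial.map_mul, Polynomial.eval_mul, hp, map_mul,
      MvPolynomial.eval₂_X, MvPolynomial.eval_X]
    congr 1
    fin_cases i <;> simp

lemma shiftPoly_ne_zero (P : MvPolynomial (Fin 2) ℝ) (hP : P ≠ 0) : shiftPoly P ≠ 0 := by
  intro h
  apply hP
  apply MvPolynomial.funext
  intro v
  have h1 := shiftPoly_eval P (v 0) (v 1 - v 0)
  rw [h] at h1
  have h2 : ![v 0, v 0 + (v 1 - v 0)] = v := by
    ext i
    fin_cases i <;> simp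
  rw [h2] at h1
  simp only [Polynomial.map_zero, Polynomial.eval_zero] at h1
  rw [← h1, map_zero]

/-- near the diagonal, the zeros of `P` approach the diagonal polynomially fast -/
theorem near_diag (P : MvPolynomial (Fin 2) ℝ) (hP : P ≠ 0) :
    ∃ κ : ℝ, 0 < κ ∧ ∃ (r : ℕ) (K : ℝ), 0 ≤ K ∧ ∀ x : ℝ, 1 ≤ x → ∀ y : ℝ, y ≠ x →
      |y - x| ≤ κ → MvPolynomial.eval ![x, y] P = 0 → |y - x| ^ r * x ≤ K := by
  classical
  obtain ⟨m, Q, hQ, hQ0⟩ := exists_pow_mul (shiftPoly P) (shiftPoly_ne_zero P hP)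
  have hQne : Q ≠ 0 := by
    rintro rfl
    exact hQ0 (by simp)
  obtain ⟨i0, hi0, hmax⟩ := Finset.exists_max_image Q.support (fun i => (Q.coeff i).natDegree)
    (Polynomial.support_nonempty.2 hQne)
  set D : ℕ := (Q.coeff i0).natDegree with hD
  have hdeg : ∀ i, (Q.coeff i).natDegree ≤ D := by
    intro i
    by_cases hi : i ∈ Q.support
    · exact hmax i hi
    · rw [Polynomial.notMem_support_iff.1 hi]
      simp
  set n : ℕ := Q.natDegree + 1 with hn
  set L : ℝ[X] := ∑ i ∈ Finset.range n, C ((Q.coeff i).coeff D) * X ^ i with hL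
  have hLcoeff : L.coeff i0 ≠ 0 := by
    rw [hL, Polynomial.finsetSum_coeff]
    simp only [Polynomial.coeff_C_mul, Polynomial.coeff_X_pow]
    have hi0n : i0 ∈ Finset.range n := by
      rw [Finset.mem_range, hn]
      exact Nat.lt_succ_of_le (Polynomial.le_natDegree_of_mem_supp _ hi0)
    rw [Finset.sum_eq_single_of_mem i0 hi0n]
    · rw [if_pos rfl, mul_one, hD]
      exact Polynomial.leadingCoeff_ne_zero.2 (Polynomial.mem_support_iff.1 hi0)
    · intro b _ hb
      rw [if_neg (Ne.symm hb), mul_zero]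
  have hLne : L ≠ 0 := by
    intro h
    rw [h] at hLcoeff
    exact hLcoeff (by simp)
  obtain ⟨r, L1, hL1, hL10⟩ := exists_pow_mul L hLne
  choose Kf hKf0 hKf using fun i => lead_close (Q.coeff i) D (hdeg i)
  set K : ℝ := ∑ i ∈ Finset.range n, Kf i with hK
  have hK0 : 0 ≤ K := Finset.sum_nonneg fun i _ => hKf0 i
  set a : ℝ := |L1.eval 0| / 2 with ha
  have hL1e : L1.eval 0 ≠ 0 := by rwa [← Polynomial.coeff_zero_eq_eval_zero]
  have ha0 : 0 < a := by rw [ha]; positivity
  obtain ⟨κ0, hκ0, hκ⟩ : ∃ κ0 : ℝ, 0 < κ0 ∧ ∀ t : ℝ, |t| < κ0 → a ≤ |L1.eval t| := by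
    have hc : ContinuousAt (fun t : ℝ => |L1.eval t|) 0 :=
      (Polynomial.continuous L1).abs.continuousAt
    have h1 : ∀ᶠ t in 𝓝 (0 : ℝ), a < |L1.eval t| :=
      hc.eventually (lt_mem_nhds (by rw [ha]; have := abs_pos.2 hL1e; linarith))
    rw [Metric.eventually_nhds_iff] at h1
    obtain ⟨κ0, h2, h3⟩ := h1
    refine ⟨κ0, h2, fun t ht => (h3 ?_).le⟩
    rwa [Real.dist_eq, sub_zero]
  refine ⟨min (κ0 / 2) 1, by positivity, r, K / a, by positivity, ?_⟩
  intro x hx y hyx hyκ hP0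
  set t : ℝ := y - x with ht
  have ht0 : t ≠ 0 := sub_ne_zero.2 hyx
  have ht1 : |t| ≤ 1 := hyκ.trans (min_le_right _ _)
  have htκ : |t| < κ0 := lt_of_le_of_lt (hyκ.trans (min_le_left _ _)) (by linarith)
  have hx0 : 0 < x := by linarith
  have hxD : 0 < x ^ D := pow_pos hx0 D
  have hy : y = x + t := by rw [ht]; ring
  rw [hy] at hP0
  rw [← shiftPoly_eval, hQ, Polynomial.map_mul, Polynomial.map_pow, Polynomial.map_X,
    Polynomial.eval_mul, Polynomial.eval_pow, Polynomial.eval_X] at hP0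
  have hQz : (Q.map (Polynomial.evalRingHom x)).eval t = 0 := by
    rcases mul_eq_zero.1 hP0 with h | h
    · exact absurd h (pow_ne_zero m ht0)
    · exact h
  have hsum : (Q.map (Polynomial.evalRingHom x)).eval t =
      ∑ i ∈ Finset.range n, (Q.coeff i).eval x * t ^ i := by
    rw [Polynomial.eval_eq_sum_range' (n := n)
      (lt_of_le_of_lt Polynomial.natDegree_map_le (Nat.lt_succ_self _))]
    refine Finset.sum_congr rfl fun i _ => ?_
    rw [Polynomial.coeff_map, Polynomial.coe_evalRingHom]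
  have hLsum : L.eval t = ∑ i ∈ Finset.range n, (Q.coeff i).coeff D * t ^ i := by
    rw [hL, Polynomial.eval_finsetSum]
    refine Finset.sum_congr rfl fun i _ => ?_
    rw [Polynomial.eval_mul, Polynomial.eval_C, Polynomial.eval_pow, Polynomial.eval_X]
  have hdiff : |x ^ D * L.eval t| * x ≤ K * x ^ D := by
    have e1 : x ^ D * L.eval t = - ∑ i ∈ Finset.range n,
        ((Q.coeff i).eval x - (Q.coeff i).coeff D * x ^ D) * t ^ i := by
      have e2 : ∑ i ∈ Finset.range n,
          ((Q.coeff i).eval x - (Q.coeff i).coeff D * x ^ D) * t ^ i =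
          (Q.map (Polynomial.evalRingHom x)).eval t - x ^ D * L.eval t := by
        rw [hsum, hLsum, Finset.mul_sum, ← Finset.sum_sub_distrib]
        refine Finset.sum_congr rfl fun i _ => by ring
      rw [e2, hQz]
      ring
    rw [e1, abs_neg]
    refine (mul_le_mul_of_nonneg_right (Finset.abs_sum_le_sum_abs _ _) hx0.le).trans ?_
    rw [Finset.sum_mul, hK, Finset.sum_mul]
    refine Finset.sum_le_sum fun i _ => ?_
    rw [abs_mul, abs_pow]
    have h2 : |t| ^ i ≤ 1 := pow_le_one₀ (abs_nonneg _) ht1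
    have h3 := hKf i x hx
    have h4 : |(Q.coeff i).eval x - (Q.coeff i).coeff D * x ^ D| * |t| ^ i * x =
        (|(Q.coeff i).eval x - (Q.coeff i).coeff D * x ^ D| * x) * |t| ^ i := by ring
    rw [h4]
    calc (|(Q.coeff i).eval x - (Q.coeff i).coeff D * x ^ D| * x) * |t| ^ i
        ≤ (|(Q.coeff i).eval x - (Q.coeff i).coeff D * x ^ D| * x) * 1 :=
          mul_le_mul_of_nonneg_left h2 (by positivity)
      _ ≤ Kf i * x ^ D := by rw [mul_one]; exact h3
  have h5 : |L.eval t| * x ≤ K := by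
    rw [abs_mul, abs_of_pos hxD] at hdiff
    have : x ^ D * (|L.eval t| * x) ≤ x ^ D * K := by linarith
    exact le_of_mul_le_mul_left this hxD
  have h6 : |L.eval t| = |t| ^ r * |L1.eval t| := by
    rw [hL1, Polynomial.eval_mul, Polynomial.eval_pow, Polynomial.eval_X, abs_mul, abs_pow]
  rw [h6] at h5
  have h7 := hκ t htκ
  rw [le_div_iff₀ ha0]
  have h8 : 0 ≤ |t| ^ r * x := by positivity
  nlinarith

end Pool.Agent.V8H7.ORD
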