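import Pool.Agent.H295R2.Iso.B

/-! Well-spaced ordinates: the counting argument on one dyadic block. -/

set_option autoImplicit false

open Complex Filter Topology Set MeasureTheory
open scoped BigOperators ComplexConjugate

namespace Pool.Agent.V8H7.ORD

open H370 H344 H295Iso

/-- `t` is the ordinate of a zero in the open strip -/
def IsOrd (F : ℂ → ℂ) (t : ℝ) : Prop := ∃ s : ℂ, F s = 0 ∧ 0 < s.re ∧ s.re < 1 ∧ s.im = t

/-- `t` is at distance more than `c / log t` from all the other ordinates -/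
def Spaced (F : ℂ → ℂ) (c t : ℝ) : Prop :=
  ∀ t' : ℝ, IsOrd F t' → t' ≠ t → c / Real.log t < |t' - t|

def WW (F : ℂ → ℂ) (c a b : ℝ) : Set ℝ := {t | a < t ∧ t ≤ b ∧ IsOrd F t ∧ Spaced F c t}

/-- the number of the well-spaced ordinates -/
noncomputable def PP (F : ℂ → ℂ) (c a b : ℝ) : ℕ := (WW F c a b).ncard

lemma WW_subset (F : ℂ → ℂ) (c a b : ℝ) : WW F c a b ⊆ Complex.im '' zset F a b := by
  rintro t ⟨h1, h2, ⟨s, h0, h3, h4, rfl⟩, -⟩
  exact ⟨s, ⟨h3, h4, h1, h2, h0⟩, rfl⟩

lemma WW_finite {F : ℂ → ℂ} {a b : ℝ} (hfin : (zset F a b).Finite) (c : ℝ) :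
    (WW F c a b).Finite := (hfin.image _).subset (WW_subset F c a b)

lemma PP_add {F : ℂ → ℂ} (hF : GoodL F) (d : ℝ) {a b c : ℝ} (h : 1 ≤ a) (hab : a ≤ b)
    (hbc : b ≤ c) : PP F d a c = PP F d a b + PP F d b c := by
  unfold PP
  rw [← Set.ncard_union_eq ?_ (WW_finite (zset_finite hF a b h) d)
    (WW_finite (zset_finite hF b c (h.trans hab)) d)]
  · congr 1
    ext t
    simp only [WW, Set.mem_ofPred_eq, Set.mem_union]
    constructor
    · rintro ⟨h1, h2, h3⟩
      rcases le_or_gt t b with h4 | h4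
      · exact Or.inl ⟨h1, h4, h3⟩
      · exact Or.inr ⟨h4, h2, h3⟩
    · rintro (⟨h1, h2, h3⟩ | ⟨h1, h2, h3⟩)
      · exact ⟨h1, h2.trans hbc, h3⟩
      · exact ⟨hab.trans_lt h1, h2, h3⟩
  · rw [Set.disjoint_left]
    rintro t ⟨h1, h2, h3⟩ ⟨h4, h5, h6⟩
    linarith

/-- two zeros, one of them isolated, the other one critical, are not close -/
lemma iso_sep {F : ℂ → ℂ} {T H ρ w : ℝ} (hw : 0 ≤ w) {s s' : ℂ} (hs : s ∈ isoSet F T H ρ w)
    (hs' : s' ∈ isoSet F T H ρ w) (hne : s' ≠ s) : ρ < |s'.im - s.im| := by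
  obtain ⟨-, -, -, h⟩ := hs
  obtain ⟨⟨h1, h2, h3, h4, h5⟩, h6, -, -⟩ := hs'
  by_contra hcon
  push Not at hcon
  have := h s' h5 h1 h2 hne hcon
  rw [h6] at this
  simp only [sub_self, abs_zero] at this
  linarith

/-- the block inequality -/
theorem block {F : ℂ → ℂ} (hF : GoodL F) {r ε : ℝ} (hr0 : 0 ≤ r) (hr : r ≤ 1 / 3) (hε : 0 < ε) :
    ∃ T0 : ℝ, ∀ T : ℝ, T0 ≤ T →
      ((3 * (1 - (c0 1 - 1) / KK r ^ 2) - 1) / 2 - ε) * (NN F T (2 * T) : ℝ) ≤
        (PP F (Real.pi * r) T (2 * T) : ℝ) := by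
  classical
  have hpi := Real.pi_pos
  obtain ⟨T0, hT0, hiso⟩ := iso_short hF (h := 1) (r := r) (ε := ε / 3) one_pos le_rfl hr0
    (by linarith) (by linarith)
  obtain ⟨C, hC, hz⟩ := zcount hF
  -- `log T` is small compared with the number of zeros
  obtain ⟨C', T1, hC', hT1, hasymp⟩ := nn_asymp hF
  have hlow : ∀ᶠ T : ℝ in atTop, 6 * C * Real.log T ≤ ε * (NN F T (2 * T) : ℝ) := by
    have h2 : ∀ᶠ T : ℝ in atTop, (C' + 1) * (2 * Real.pi) ≤ Real.log T :=
      Real.tendsto_log_atTop.eventually_ge_atTop _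
    have h3 : ∀ᶠ T : ℝ in atTop, Real.log T ≤ (ε / (6 * C)) * T := by
      have h4 := (Real.isLittleO_log_id_atTop).bound (show 0 < ε / (6 * C) by positivity)
      filter_upwards [h4, eventually_ge_atTop (1 : ℝ)] with T hT hT1
      rw [Real.norm_of_nonneg (Real.log_nonneg hT1), id, Real.norm_of_nonneg (by linarith)] at hT
      exact hT
    filter_upwards [h2, h3, eventually_ge_atTop T1] with T hT hT' hTT
    have h4 := hasymp T hTT T (2 * T) le_rfl (by linarith) (by linarith) le_rfl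
    have h5 := (abs_le.mp h4).1
    have hTp : 0 < T := by linarith
    have h6 : (C' + 1) * T ≤ T * Real.log T / (2 * Real.pi) := by
      rw [le_div_iff₀ (by positivity)]
      nlinarith
    have h7 : T ≤ (NN F T (2 * T) : ℝ) := by linarith
    have h8 : 6 * C * Real.log T ≤ ε * T := by
      have h9 : 6 * C * Real.log T ≤ 6 * C * ((ε / (6 * C)) * T) :=
        mul_le_mul_of_nonneg_left hT' (by positivity)
      have h10 : 6 * C * ((ε / (6 * C)) * T) = ε * T := by field_simp
      linarith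
    exact h8.trans (mul_le_mul_of_nonneg_left h7 hε.le)
  obtain ⟨T2, hT2⟩ := hlow.exists_forall_of_atTop
  refine ⟨max (max T0 T2) (max 10 (Real.exp (2 * Real.pi))), fun T hT => ?_⟩
  have hTT0 : T0 ≤ T := ((le_max_left _ _).trans (le_max_left _ _)).trans hT
  have hTT2 : T2 ≤ T := ((le_max_right _ _).trans (le_max_left _ _)).trans hT
  have hT10 : 10 ≤ T := ((le_max_left _ _).trans (le_max_right _ _)).trans hT
  have hTe : Real.exp (2 * Real.pi) ≤ T := ((le_max_right _ _).trans (le_max_right _ _)).trans hT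
  have hTp : 0 < T := by linarith
  have hL : 2 * Real.pi ≤ Real.log T := (Real.le_log_iff_exp_le hTp).2 hTe
  have hLp : 0 < Real.log T := by linarith
  have e2 : T + T = 2 * T := by ring
  have h1 := hiso T hTT0 T (by rw [Real.rpow_one]) le_rfl
  rw [e2, one_mul, one_mul] at h1
  set ρ : ℝ := 2 * Real.pi * r / Real.log T with hρ
  set w : ℝ := 4 * Real.pi / 5 / Real.log T with hw
  have hρ0 : 0 ≤ ρ := by positivity
  have hw0 : 0 ≤ w := by positivity
  have hρ1 : ρ ≤ 1 := by
    rw [hρ, div_le_one hLp]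
    nlinarith
  set A : Set ℂ := isoSet F T T ρ w with hA
  have hfin : (zset F T (2 * T)).Finite := zset_finite hF _ _ (by linarith)
  have hAsub : A ⊆ zset F T (2 * T) := by
    intro s hs
    have := hs.1
    rwa [e2] at this
  have hAfin : A.Finite := hfin.subset hAsub
  -- right zeros in the longer interval
  set R : Set ℂ := {s : ℂ | s ∈ zset F (T - 1) (2 * T + 1) ∧ 1 / 2 < s.re} with hR
  have hfin' : (zset F (T - 1) (2 * T + 1)).Finite := zset_finite hF _ _ (by linarith)
  have hRfin : R.Finite := hfin'.subset fun s hs => hs.1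
  have hRcard : R.ncard ≤ NR F (T - 1) (2 * T + 1) := by
    unfold NR
    rw [← hR, finsum_mem_eq_finite_toFinset_sum _ hRfin, Set.ncard_eq_toFinset_card _ hRfin,
      Finset.card_eq_sum_ones]
    refine Finset.sum_le_sum fun s hs => ?_
    rw [Set.Finite.mem_toFinset] at hs
    exact Loc.mult_pos' hF (by linarith [hs.1.2.2.1]) hs.1.2.2.2.2
  -- spoiled points
  set B : Set ℂ := {s | s ∈ A ∧ ∃ s' ∈ R, |s'.im - s.im| ≤ ρ / 2} with hB
  have hBcard : B.ncard ≤ R.ncard := by
    have hch : ∀ s ∈ B, ∃ s' ∈ R, |s'.im - s.im| ≤ ρ / 2 := fun s hs => hs.2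
    choose! f hf using hch
    refine Set.ncard_le_ncard_of_injOn f (fun s hs => (hf s hs).1) ?_ hRfin
    intro s hs s' hs' heq
    by_contra hne
    have h3 := iso_sep hw0 hs.1 hs'.1 (Ne.symm hne)
    have h4 := (hf s hs).2
    have h5 := (hf s' hs').2
    rw [← heq] at h5
    have h6 : |s'.im - s.im| ≤ ρ := by
      rw [abs_le] at h4 h5 ⊢
      constructor <;> linarith [h4.1, h4.2, h5.1, h5.2]
    linarith
  -- the good points
  have hgood : (A \ B).ncard ≤ PP F (Real.pi * r) T (2 * T) := by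
    unfold PP
    refine Set.ncard_le_ncard_of_injOn Complex.im ?_ ?_ (WW_finite hfin _)
    · rintro s ⟨hsA, hsB⟩
      have hsz := hAsub hsA
      refine ⟨hsz.2.2.1, hsz.2.2.2.1, ⟨s, hsz.2.2.2.2, hsz.1, hsz.2.1, rfl⟩, ?_⟩
      intro t' ht' hne
      by_contra hcon
      push Not at hcon
      have hlogs : Real.log T ≤ Real.log s.im := Real.log_le_log hTp hsz.2.2.1.le
      have h3 : |t' - s.im| ≤ ρ / 2 := by
        refine hcon.trans ?_
        have e : ρ / 2 = Real.pi * r / Real.log T := by rw [hρ]; ring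
        rw [e]
        exact div_le_div_of_nonneg_left (by positivity) hLp hlogs
      obtain ⟨s', h0, hr1, hr2, rfl⟩ := ht'
      have hne' : s' ≠ s := fun h => hne (by rw [h])
      have h4 := hsA.2.2.2 s' h0 hr1 hr2 hne' (h3.trans (by linarith))
      have him1 : T - 1 < s'.im := by
        have := (abs_le.mp h3).1
        linarith [hsz.2.2.1]
      have him2 : s'.im ≤ 2 * T + 1 := by
        have := (abs_le.mp h3).2
        linarith [hsz.2.2.2.1]
      apply hsB
      refine ⟨hsA, ?_⟩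
      rcases lt_trichotomy s'.re (1 / 2) with h5 | h5 | h5
      · have hz' : F (1 - conj s') = 0 := by
          have h6 := hF.symm s' hr1 hr2 (by linarith)
          have h7 := Loc.mult_pos' hF (s := s') (by linarith) h0
          have h8 : 1 ≤ mult F (1 - conj s') := by
            unfold mult analyticOrderNatAt at h7 ⊢
            rw [h6]
            exact h7
          by_contra hcon2
          have h9 : analyticOrderAt F (1 - conj s') = 0 := by
            apply analyticOrderAt_eq_zero.2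
            right
            exact hcon2
          unfold mult analyticOrderNatAt at h8
          rw [h9] at h8
          simp at h8
        refine ⟨1 - conj s', ⟨⟨?_, ?_, ?_, ?_, hz'⟩, ?_⟩, ?_⟩
        · simp; linarith
        · simp; linarith
        · simpa using him1
        · simpa using him2
        · simp; linarith
        · simpa using h3
      · rw [h5] at h4
        simp only [sub_self, abs_zero] at h4
        linarith
      · exact ⟨s', ⟨⟨hr1, hr2, him1, him2, h0⟩, h5⟩, h3⟩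
    · rintro s ⟨hsA, -⟩ s' ⟨hsA', -⟩ heq
      apply Complex.ext
      · rw [hsA.2.1, hsA'.2.1]
      · exact heq
  have hAB : A.ncard ≤ (A \ B).ncard + B.ncard := by
    have hBA : B ⊆ A := fun s hs => hs.1
    have := Set.ncard_sdiff_add_ncard_of_subset hBA hAfin
    omega
  have hNs : A.ncard ≤ Ns F (T - 1) (2 * T + 1) := by
    unfold Ns
    refine Set.ncard_le_ncard ?_ (hfin'.subset fun s hs => hs.1)
    intro s hs
    have h3 := hAsub hs
    exact ⟨⟨h3.1, h3.2.1, by linarith [h3.2.2.1], by linarith [h3.2.2.2.1], h3.2.2.2.2⟩,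
      hs.2.1, hs.2.2.1⟩
  have hsplit := NR_split hF (a := T - 1) (b := 2 * T + 1) (by linarith)
  have hadd1 := NN_add hF (show (1 : ℝ) ≤ T - 1 by linarith) (show T - 1 ≤ T by linarith)
    (show T ≤ 2 * T + 1 by linarith)
  have hadd2 := NN_add hF (show (1 : ℝ) ≤ T by linarith) (show T ≤ 2 * T by linarith)
    (show 2 * T ≤ 2 * T + 1 by linarith)
  have hz1 : (NN F (T - 1) T : ℝ) ≤ C * Real.log T := by
    have h3 : NN F (T - 1) T ≤ NN F (T - 1) (T + 1) := NN_mono hF (by linarith) le_rfl (by linarith)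
    have h4 : (NN F (T - 1) T : ℝ) ≤ NN F (T - 1) (T + 1) := by exact_mod_cast h3
    exact h4.trans (hz T (by linarith))
  have hz2 : (NN F (2 * T) (2 * T + 1) : ℝ) ≤ 2 * C * Real.log T := by
    have h3 : NN F (2 * T) (2 * T + 1) ≤ NN F (2 * T - 1) (2 * T + 1) :=
      NN_mono hF (by linarith) (by linarith) le_rfl
    have h4 : (NN F (2 * T) (2 * T + 1) : ℝ) ≤ NN F (2 * T - 1) (2 * T + 1) := by exact_mod_cast h3
    have h5 := hz (2 * T) (by linarith)
    have h6 : Real.log (2 * T) ≤ 2 * Real.log T := by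
      have : Real.log (2 * T) ≤ Real.log (T ^ 2) := Real.log_le_log (by linarith) (by nlinarith)
      rw [Real.log_pow] at this
      exact_mod_cast this
    have h7 := mul_le_mul_of_nonneg_left h6 hC.le
    linarith
  have hfinal := hT2 T hTT2
  -- collect
  have g1 : (A.ncard : ℝ) ≤ (A \ B).ncard + B.ncard := by exact_mod_cast hAB
  have g2 : (B.ncard : ℝ) ≤ R.ncard := by exact_mod_cast hBcard
  have g3 : (R.ncard : ℝ) ≤ NR F (T - 1) (2 * T + 1) := by exact_mod_cast hRcard
  have g4 : 2 * (NR F (T - 1) (2 * T + 1) : ℝ) + Ns F (T - 1) (2 * T + 1) ≤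
      NN F (T - 1) (2 * T + 1) := by exact_mod_cast hsplit
  have g5 : (A.ncard : ℝ) ≤ Ns F (T - 1) (2 * T + 1) := by exact_mod_cast hNs
  have g6 : ((A \ B).ncard : ℝ) ≤ PP F (Real.pi * r) T (2 * T) := by exact_mod_cast hgood
  have g7 : (NN F (T - 1) (2 * T + 1) : ℝ) = NN F (T - 1) T + (NN F T (2 * T) +
      NN F (2 * T) (2 * T + 1)) := by
    rw [hadd1, hadd2]
    push_cast
    ring
  have g8 : (isoN F T T ρ w : ℝ) = A.ncard := rfl
  rw [g8] at h1
  set N : ℝ := (NN F T (2 * T) : ℝ) with hN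
  have hN0 : 0 ≤ N := Nat.cast_nonneg _
  set p : ℝ := 1 - (c0 1 - 1) / KK r ^ 2 with hp
  have h9 : (3 * (p - ε / 3) - 1) / 2 * N ≤ (3 * A.ncard - N) / 2 := by
    have : (p - ε / 3) * N ≤ A.ncard := h1
    nlinarith
  nlinarith

end Pool.Agent.V8H7.ORD
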